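import Mathlib

set_option autoImplicit false

/-!
# LGA: acyclic sets in oriented line graphs. Definitions.

`Sys V Lam`: a finite linear space (`L l` are the lines, two lines share at most one point)
together with an orientation `T` of its collinearity graph and the parameters of the process.
-/

namespace Pool.Agent.LGA

open Finset

/-- A finite system of lines with a tournament on every line. `T u v = true` is an arc from `u`
to `v`; arcs join collinear points only; every point has a line consisting of this point only. -/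
structure Sys (V Lam : Type) [Fintype V] [DecidableEq V] [Fintype Lam] [DecidableEq Lam] where
  L : Lam → Finset V
  T : V → V → Bool
  q : ℕ
  r : ℕ
  /-- lines with at least `b` points are big -/
  b : ℕ
  /-- largest number of cuts of a line -/
  H : ℕ
  del : ℝ
  lam : ℝ
  hq : 1 ≤ q
  hr : 1 ≤ r
  hb : 2 ≤ b
  hdel : 0 < del
  hdel1 : del ≤ 1 / 2
  hlam : 0 < lam
  hV : 0 < Fintype.card V
  hT : ∀ u v, T u v = true → T v u = false
  hTL : ∀ l, ∀ u ∈ L l, ∀ v ∈ L l, u ≠ v → T u v = true ∨ T v u = true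
  hTC : ∀ u v, T u v = true → ∃ l, u ∈ L l ∧ v ∈ L l
  hLq : ∀ l, (L l).card ≤ q
  hLL : ∀ l l', l ≠ l' → (L l ∩ L l').card ≤ 1
  hLr : ∀ v, (univ.filter fun l => v ∈ L l).card ≤ r
  hcov : ∀ v, ∃ l, L l = {v}

namespace Sys

variable {V Lam : Type} [Fintype V] [DecidableEq V] [Fintype Lam] [DecidableEq Lam]
  (S : Sys V Lam)

/-- out-neighbours (`s = true`) or in-neighbours (`s = false`) of `z` -/
def side (s : Bool) (z : V) : Finset V :=
  univ.filter fun v => if s = true then S.T z v = true else S.T v z = true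

/-- the lines through `v` -/
def lines (v : V) : Finset Lam := univ.filter fun l => v ∈ S.L l

/-- the factor of the line `l` in the weight of `v` when the set of `l` is `B` -/
noncomputable def fac (l : Lam) (B : Finset V) (v : V) : ℝ :=
  if v ∈ B then (if S.b ≤ (S.L l).card then ((S.L l).card : ℝ) / (B.card : ℝ) else 1) else 0

/-- weight of `v` in the state `A` -/
noncomputable def wt (A : Lam → Finset V) (v : V) : ℝ :=
  1 / (S.q : ℝ) * ∏ l ∈ S.lines v, S.fac l (A l) v

/-- weight of `v` without the line `l` (times `q`) -/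
noncomputable def beta (A : Lam → Finset V) (l : Lam) (v : V) : ℝ :=
  ∏ l' ∈ (S.lines v).erase l, S.fac l' (A l') v

noncomputable def Z (A : Lam → Finset V) (l : Lam) (X : Finset V) : ℝ :=
  ∑ v ∈ X, S.beta A l v

/-- unbalanced points of `D` -/
noncomputable def unb (D : Finset V) : Finset V :=
  D.filter fun v => ((D ∩ S.side true v).card : ℝ) < S.del * (D.card : ℝ) ∨
    ((D ∩ S.side false v).card : ℝ) < S.del * (D.card : ℝ)

/-- no violation on the line `l` -/
def okL (A : Lam → Finset V) (l : Lam) : Prop :=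
  S.Z A l (A l) ≤ (1 + S.del) * ((A l).card : ℝ) ∧
    S.Z A l (S.unb (A l)) ≤ ((S.unb (A l)).card : ℝ) + S.del * ((A l).card : ℝ)

/-- `z` can be used as a pivot -/
def good (A : Lam → Finset V) (h : Lam → ℕ) (z : V) : Prop :=
  ∀ l ∈ S.lines z, z ∈ A l ∧
    (S.b ≤ (S.L l).card → h l < S.H ∧ S.okL A l ∧ z ∉ S.unb (A l))

open Classical in
/-- the set of good points -/
noncomputable def G (A : Lam → Finset V) (h : Lam → ℕ) : Finset V :=
  univ.filter fun z => S.good A h z

/-- new set of the line `l` when `z` is the pivot and the answer of `l` is `o` -/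
def nA1 (A : Lam → Finset V) (z : V) (l : Lam) (o : Option Bool) : Finset V :=
  if z ∈ S.L l then
    (if S.b ≤ (S.L l).card then
      (match o with
        | none => ∅
        | some s => A l ∩ S.side s z)
    else ∅)
  else A l

/-- new state -/
def nA (A : Lam → Finset V) (z : V) (c : Lam → Option Bool) : Lam → Finset V :=
  fun l => S.nA1 A z l (c l)

/-- new numbers of cuts -/
def nh (h : Lam → ℕ) (z : V) : Lam → ℕ := fun l => if z ∈ S.L l then h l + 1 else h l

/-- probability of the answer `o` of the line `l` -/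
noncomputable def pr (A : Lam → Finset V) (z : V) (l : Lam) (o : Option Bool) : ℝ :=
  if z ∈ S.L l ∧ S.b ≤ (S.L l).card then
    (match o with
      | some s => ((A l ∩ S.side s z).card : ℝ) / ((A l).card : ℝ)
      | none => 1 - ((A l ∩ S.side true z).card : ℝ) / ((A l).card : ℝ) -
          ((A l ∩ S.side false z).card : ℝ) / ((A l).card : ℝ))
  else (if o = none then 1 else 0)

/-- expectation over the answers -/
noncomputable def EE (A : Lam → Finset V) (z : V) (F : (Lam → Option Bool) → ℝ) : ℝ :=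
  ∑ c : Lam → Option Bool, (∏ l, S.pr A z l (c l)) * F c

/-- possible sets of the line `l` after at most `n` cuts -/
def cutF (l : Lam) : ℕ → Finset (Finset V)
  | 0 => {S.L l}
  | n + 1 => cutF l n ∪
      (cutF l n ×ˢ (S.L l ×ˢ (univ : Finset Bool))).image fun x => x.1 ∩ S.side x.2.2 x.2.1

noncomputable def d0 : ℝ := S.del ^ S.H * (S.b : ℝ)

/-- upper bound of the products of the factors -/
noncomputable def B : ℝ := (1 / S.del) ^ (S.H * S.r)

/-- rate -/
noncomputable def kap : ℝ := (S.q : ℝ) / (3 * (S.r : ℝ) * (Fintype.card V : ℝ))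

/-- admissible states -/
def Inv (A : Lam → Finset V) (h : Lam → ℕ) : Prop :=
  ∀ l, A l ⊆ S.L l ∧ (S.b ≤ (S.L l).card → h l ≤ S.H ∧
    (A l = ∅ ∨ (A l ∈ S.cutF l (h l) ∧
      S.del ^ (h l) * ((S.L l).card : ℝ) ≤ ((A l).card : ℝ))))

noncomputable def W (A : Lam → Finset V) : ℝ := ∑ v, S.wt A v

noncomputable def WG (A : Lam → Finset V) (h : Lam → ℕ) : ℝ := ∑ v ∈ S.G A h, S.wt A v

/-- one exponential term -/
noncomputable def ex (A : Lam → Finset V) (l : Lam) (D X : Finset V) : ℝ :=
  Real.exp (S.lam * (S.Z A l X - (X.card : ℝ)) / (D.card : ℝ))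

/-- the big sets among the possible sets of `l` -/
noncomputable def fam (l : Lam) : Finset (Finset V) :=
  (S.cutF l S.H).filter fun D => S.d0 ≤ (D.card : ℝ)

/-- the big lines -/
def bigs : Finset Lam := univ.filter fun l => S.b ≤ (S.L l).card

noncomputable def Phi (A : Lam → Finset V) : ℝ :=
  ∑ l ∈ S.bigs, ∑ D ∈ S.fam l, (S.ex A l D D + S.ex A l D (S.unb D))

noncomputable def R (h : Lam → ℕ) : ℝ := ∑ l ∈ S.bigs, ((S.L l).card : ℝ) * 2 ^ (h l)

/-- all big lines through `z` answer `true` -/
def sel (z : V) (c : Lam → Option Bool) : Prop :=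
  ∀ l ∈ S.lines z, S.b ≤ (S.L l).card → c l = some true

open Classical in
noncomputable def selI (z : V) (c : Lam → Option Bool) : ℝ := if S.sel z c then 1 else 0

noncomputable def K1 : ℝ := 6 * S.del * (S.r : ℝ) * (Fintype.card V : ℝ) / (S.q : ℝ)

noncomputable def K2 : ℝ := S.B * Real.exp (-(S.lam * S.del))

noncomputable def K3 : ℝ := 2 / (S.q : ℝ) * (1 / 2) ^ S.H

/-- relative loss of `W` per step, divided by the rate -/
noncomputable def eW : ℝ := (S.r : ℝ) * (S.b : ℝ) * S.B / (S.q : ℝ)

/-- relative growth of `Phi` per step, divided by the rate -/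
noncomputable def eP : ℝ := 2 * (S.r : ℝ) * (S.lam * ((S.r : ℝ) * S.B)) ^ 2 / S.d0

/-- objective function -/
noncomputable def Obj (a b' c' d : ℝ) (A : Lam → Finset V) (h : Lam → ℕ) : ℝ :=
  a * S.W A - b' * S.Phi A - c' * S.R h - d

/-- lower bound of the expected objective after one step -/
noncomputable def Low (a b' c' d : ℝ) (A : Lam → Finset V) (h : Lam → ℕ) : ℝ :=
  S.kap * S.del ^ S.r * (S.W A - S.K1 - S.K2 * S.Phi A - S.K3 * S.R h) +
    a * (1 - S.kap * S.eW) * S.W A - b' * (1 + S.kap * S.eP) * S.Phi A -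
    c' * (1 + 2 * S.kap) * S.R h - d

/-- conditions on the parameters -/
def Cond : Prop :=
  (S.b : ℝ) * S.B ≤ (S.q : ℝ) ∧ 2 / S.del ≤ S.d0 ∧ S.lam * ((S.r : ℝ) * S.B) ≤ S.d0 ∧
    S.kap * S.eW ≤ 1

/-- an acyclic set of alive points of size at least `x` -/
def Ach (A : Lam → Finset V) (x : ℝ) : Prop :=
  ∃ M : Finset V, (∀ v ∈ M, ∀ l ∈ S.lines v, v ∈ A l) ∧
    (∃ rk : V → ℕ, ∀ u ∈ M, ∀ v ∈ M, S.T u v = true → rk u < rk v) ∧ x ≤ (M.card : ℝ)

end Sys

end Pool.Agent.LGA
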