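import Pool.Agent.LGA.Defs

set_option autoImplicit false

/-!
# LGA targets. The proof of every target is in its docstring.

Setting (`Defs.lean`): lines `L l`, tournament `T` on every line, state `A l` (subset of `L l`),
`h l` = number of cuts of `l` so far. A pivot `z` is a good point; every big line through `z`
answers `none` (line dies) or `some s` (`A l` is cut to the side `s` of `z`) with probability
proportional to the size of the side; small lines through `z` die.
-/

namespace Pool.Agent.LGA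

open Finset

/-- PROD. PROOF. Distributivity: `Finset.prod_univ_sum` (or `Finset.prod_sum`,
`Fintype.piFinset_univ`) for the functions `fun o => pr A z l o * g l o`, after
`Finset.prod_mul_distrib`. -/
def T_PROD : Prop := ∀ (V Lam : Type) [Fintype V] [DecidableEq V] [Fintype Lam]
  [DecidableEq Lam] (S : Sys V Lam) (A : Lam → Finset V) (z : V) (g : Lam → Option Bool → ℝ),
  S.EE A z (fun c => ∏ l, g l (c l)) = ∏ l, ∑ o, S.pr A z l o * g l o

/-- PRB. PROOF. The sides `side true z` and `side false z` are disjoint (`hT`), so the two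
fractions add up to at most `1` (division by `0` is `0`). The sum of the three probabilities is
`1` by definition. -/
def T_PRB : Prop := ∀ (V Lam : Type) [Fintype V] [DecidableEq V] [Fintype Lam]
  [DecidableEq Lam] (S : Sys V Lam) (A : Lam → Finset V) (z : V) (l : Lam),
  (∀ o, 0 ≤ S.pr A z l o) ∧ ∑ o, S.pr A z l o = 1

/-- FAC. PROOF. If `z` is not on `l`: `nA1 = A l`, only `o = none` has probability `1`. If `l` is
small and contains `z`: `nA1 = ∅`, the sum is `0`. If `l` is big and contains `z`: `o = none`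
gives `0`; for `o = some s` the term is `|A l ∩ side s z| / |A l| * |L l| / |A l ∩ side s z|
= |L l| / |A l|` if `v ∈ A l ∩ side s z` and `0` otherwise, and `v` is in at most one of the two
sides (`hT`); if `v ≠ z`, `v ∈ L l`, it is in exactly one side (`hTL`). -/
def T_FAC : Prop := ∀ (V Lam : Type) [Fintype V] [DecidableEq V] [Fintype Lam]
  [DecidableEq Lam] (S : Sys V Lam) (A : Lam → Finset V) (z v : V) (l : Lam),
  (∑ o, S.pr A z l o * S.fac l (S.nA1 A z l o) v ≤ S.fac l (A l) v) ∧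
  (z ∉ S.L l ∨ (S.b ≤ (S.L l).card ∧ v ≠ z ∧ v ∈ S.L l) →
    ∑ o, S.pr A z l o * S.fac l (S.nA1 A z l o) v = S.fac l (A l) v)

/-- BETA (uses PROD, PRB, FAC). PROOF. `beta (nA A z c) l v` is the product over all lines `l'` of
`g l' (c l')`, with `g l' o = fac l' (nA1 A z l' o) v` for `l' ∈ (lines v).erase l` and `1`
otherwise. PROD, `∑ pr = 1` and FAC (all factors are nonnegative) give the claim. -/
def T_BETA : Prop := ∀ (V Lam : Type) [Fintype V] [DecidableEq V] [Fintype Lam]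
  [DecidableEq Lam] (S : Sys V Lam) (A : Lam → Finset V) (z v : V) (l : Lam),
  S.EE A z (fun c => S.beta (S.nA A z c) l v) ≤ S.beta A l v

/-- WV (uses PROD, PRB, FAC). PROOF. As BETA, with the equality case of FAC for every line through
`v`: such a line either misses `z` or is big, and `v ≠ z` because of the line `{z}` (`hcov`,
`hb`). -/
def T_WV : Prop := ∀ (V Lam : Type) [Fintype V] [DecidableEq V] [Fintype Lam]
  [DecidableEq Lam] (S : Sys V Lam) (A : Lam → Finset V) (z v : V),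
  (∀ l, v ∈ S.L l → z ∈ S.L l → S.b ≤ (S.L l).card) →
  S.EE A z (fun c => S.wt (S.nA A z c) v) = S.wt A v

/-- INV. PROOF. Let `l` be big. If `z` is not on `l` nothing changes. If `z ∈ L l` then
`z ∈ A l`, `h l < H` and `z ∉ unb (A l)`. `c l = none`: the new set is empty. `c l = some s`: the
new set `A l ∩ side s z` is in `cutF l (h l + 1)` and has at least `del * |A l|` points because
`z` is balanced. Subsets: clear. -/
def T_INV : Prop := ∀ (V Lam : Type) [Fintype V] [DecidableEq V] [Fintype Lam]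
  [DecidableEq Lam] (S : Sys V Lam) (A : Lam → Finset V) (h : Lam → ℕ) (z : V)
  (c : Lam → Option Bool), S.Inv A h → S.good A h z → S.Inv (S.nA A z c) (S.nh h z)

/-- BND. PROOF. For a big line `A l = ∅` (factor `0`) or
`|L l| / |A l| ≤ (1 / del) ^ (h l) ≤ (1 / del) ^ H`; small lines have factors `0` or `1`. There
are at most `r` lines through `v` (`hLr`) and `(1 / del) ^ H ≥ 1`; use `Finset.prod_le_pow_card`
or `Finset.prod_le_prod`. -/
def T_BND : Prop := ∀ (V Lam : Type) [Fintype V] [DecidableEq V] [Fintype Lam]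
  [DecidableEq Lam] (S : Sys V Lam) (A : Lam → Finset V) (h : Lam → ℕ), S.Inv A h →
  (∀ l v, 0 ≤ S.beta A l v ∧ S.beta A l v ≤ S.B) ∧
  (∀ v, 0 ≤ S.wt A v ∧ S.wt A v ≤ S.B / (S.q : ℝ)) ∧ 1 ≤ S.B

/-- LANDAU. PROOF. Let `U` be the set of `v ∈ D` with `|D ∩ side s v| < del |D|`. The sum over
`v ∈ U` of `|U ∩ side s v|` counts every pair of distinct points of `U` exactly once (`hT`, `hTL`;
the sums for the two values of `s` are equal and add up to `|U| (|U| - 1)`), so
`|U| (|U| - 1) / 2 ≤ |U| del |D|` and `|U| ≤ 2 del |D| + 1`. Add the two values of `s`. -/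
def T_LANDAU : Prop := ∀ (V Lam : Type) [Fintype V] [DecidableEq V] [Fintype Lam]
  [DecidableEq Lam] (S : Sys V Lam) (l : Lam) (D : Finset V), D ⊆ S.L l →
  ((S.unb D).card : ℝ) ≤ 4 * S.del * (D.card : ℝ) + 2

/-- LINE (uses BND). PROOF. For `v ∈ L l` we have `wt A v = (1/q) * fac l (A l) v * beta A l v`.
(1) If there is no good point on `l` the sum is `0`. Otherwise the first clause of `okL` holds,
`A l ≠ ∅`, good points of `L l` are in `A l`, so the sum is at most
`(1/q) (|L l| / |A l|) Z A l (A l) ≤ (1 + del) |L l| / q`. (2) Big: (1) and `hLq`. Small: every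
term is at most `B / q` and there are fewer than `b` terms. -/
def T_LINE : Prop := ∀ (V Lam : Type) [Fintype V] [DecidableEq V] [Fintype Lam]
  [DecidableEq Lam] (S : Sys V Lam) (A : Lam → Finset V) (h : Lam → ℕ) (l : Lam), S.Inv A h →
  (S.b ≤ (S.L l).card → ∑ v ∈ (S.G A h).filter (fun v => v ∈ S.L l), S.wt A v ≤
    2 * ((S.L l).card : ℝ) / (S.q : ℝ)) ∧
  ((S.b : ℝ) * S.B ≤ (S.q : ℝ) →
    ∑ v ∈ (S.G A h).filter (fun v => v ∈ S.L l), S.wt A v ≤ 2)

/-- TOT (uses BND, LINE). PROOF. A good point on no big line has all factors `0` or `1`, so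
weight at most `1/q`: together at most `|V| / q`. The others are on a big line: at most
`∑_{l big} 2 |L l| / q ≤ 2 r |V| / q` (double counting and `hLr`). So
`WG ≤ (2 r + 1) |V| / q ≤ 3 r |V| / q`. -/
def T_TOT : Prop := ∀ (V Lam : Type) [Fintype V] [DecidableEq V] [Fintype Lam]
  [DecidableEq Lam] (S : Sys V Lam) (A : Lam → Finset V) (h : Lam → ℕ), S.Inv A h →
  0 ≤ S.WG A h ∧ S.WG A h ≤ S.W A ∧ S.kap * S.WG A h ≤ 1

/-- WGL (uses BND, LANDAU). PROOF. If `wt A v ≠ 0` and `v` is not good, then `v ∈ A l` for all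
lines `l` through `v` and there is a big line `l` through `v` with (a) `okL` and `v ∈ unb (A l)`,
or (b) not `okL`, or (c) `okL` and `h l = H`. So `W - WG` is at most the sum over the big lines
of the corresponding sums of `wt A v = (1/q) (|L l| / |A l|) beta A l v` over `unb (A l)` or
`A l`. (a): at most `(|L l| / (q |A l|)) (|unb (A l)| + del |A l|) ≤ (|L l| / q) 6 del`, by
LANDAU and `|A l| ≥ del ^ H * b = d0 ≥ 2 / del` (nonempty state sets of big lines); the sum of
`|L l|` over all lines is at most `r |V|`. (b): `A l ∈ fam l`, and `ex A l (A l) (A l)` or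
`ex A l (A l) (unb (A l))` is at least `exp (lam del)`, so `1 ≤ exp (-lam del)` times the term of
`Phi` for `D = A l`; the mass of the line is at most `|A l| B / q ≤ B`. (c): at most
`(1 + del) |L l| / q ≤ 2 |L l| / q = (2/q) (1/2) ^ H * |L l| * 2 ^ (h l)`. -/
def T_WGL : Prop := ∀ (V Lam : Type) [Fintype V] [DecidableEq V] [Fintype Lam]
  [DecidableEq Lam] (S : Sys V Lam) (A : Lam → Finset V) (h : Lam → ℕ), S.Inv A h →
  2 / S.del ≤ S.d0 →
  S.W A ≤ S.WG A h + S.K1 + S.K2 * S.Phi A + S.K3 * S.R h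

/-- WST (uses WV, BND, PRB). PROOF. For `v` on no small line with `z`, WV. The other `v` lie on
the at most `r` small lines through `z`, each with fewer than `b` points of weight at most
`B / q`; their new weights are nonnegative. -/
def T_WST : Prop := ∀ (V Lam : Type) [Fintype V] [DecidableEq V] [Fintype Lam]
  [DecidableEq Lam] (S : Sys V Lam) (A : Lam → Finset V) (h : Lam → ℕ) (z : V), S.Inv A h →
  S.W A - S.eW ≤ S.EE A z (fun c => S.W (S.nA A z c))

/-- RST (uses LINE, BND). PROOF. `R (nh h z) - R h` is the sum of `|L l| 2 ^ (h l)` over the big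
lines through `z`. Exchange the sums and use LINE (2). -/
def T_RST : Prop := ∀ (V Lam : Type) [Fintype V] [DecidableEq V] [Fintype Lam]
  [DecidableEq Lam] (S : Sys V Lam) (A : Lam → Finset V) (h : Lam → ℕ), S.Inv A h →
  (S.b : ℝ) * S.B ≤ (S.q : ℝ) →
  ∑ z ∈ S.G A h, S.wt A z * (S.R (S.nh h z) - S.R h) ≤ 2 * S.R h

/-- SEL (uses PROD, PRB). PROOF. `selI z c` is the product over all `l` of `g l (c l)`, where
`g l o = if o = some true then 1 else 0` for the big lines through `z` and `1` for the others.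
PROD: the expectation is the product over the big lines through `z` of
`|A l ∩ side true z| / |A l| ≥ del` (`z ∉ unb (A l)`, `z ∈ A l`); at most `r` factors,
`del ≤ 1`. -/
def T_SEL : Prop := ∀ (V Lam : Type) [Fintype V] [DecidableEq V] [Fintype Lam]
  [DecidableEq Lam] (S : Sys V Lam) (A : Lam → Finset V) (h : Lam → ℕ) (z : V),
  S.good A h z → S.del ^ S.r ≤ S.EE A z (fun c => S.selI z c)

/-- PHA (uses BETA, BND, INV, PRB). Here `X ⊆ D ⊆ L l`. PROOF. Let
`Δ c = Z (nA A z c) l X - Z A l X`. `beta` of `v` changes only if some line `l' ≠ l` contains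
`v` and `z`; these `v ∈ X ⊆ L l` lie in the sets `L l' ∩ L l`, `l' ∈ lines z`, `l' ≠ l`, each
with at most one point (`hLL`), so there are at most `r` of them, and each `beta` is in `[0, B]`
before and after (BND, INV): `|Δ| ≤ r B`. First part: no `beta` changes. Second part:
`EE Δ ≤ 0` by BETA, and `exp t ≤ 1 + t + t^2` for `|t| ≤ 1`, `t = lam Δ / |D|`,
`|t| ≤ lam r B / |D| ≤ 1`. -/
def T_PHA : Prop := ∀ (V Lam : Type) [Fintype V] [DecidableEq V] [Fintype Lam]
  [DecidableEq Lam] (S : Sys V Lam) (A : Lam → Finset V) (h : Lam → ℕ) (z : V) (l : Lam)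
  (D X : Finset V), S.Inv A h → S.good A h z → X ⊆ D → D ⊆ S.L l → 0 < D.card →
  ((∀ v ∈ X, ∀ l', l' ≠ l → v ∈ S.L l' → z ∉ S.L l') →
    S.EE A z (fun c => S.ex (S.nA A z c) l D X) = S.ex A l D X) ∧
  (S.lam * ((S.r : ℝ) * S.B) ≤ (D.card : ℝ) →
    S.EE A z (fun c => S.ex (S.nA A z c) l D X) ≤
      S.ex A l D X * (1 + (S.lam * ((S.r : ℝ) * S.B) / (D.card : ℝ)) ^ 2))

/-- PHB (uses PHA, LINE). PROOF. By PHA the term of `z` is at most
`wt A z * ex A l D X * (lam r B / |D|)^2` if some `v ∈ X` is on a line `l' ≠ l` with `z`, and `0`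
otherwise. The sum of `wt A z` over these good `z` is at most the sum over `v ∈ X`,
`l' ∈ lines v` of the good mass of `l'`, at most `|X| r 2 ≤ 2 r |D|` (LINE). Finally
`2 r |D| (lam r B / |D|)^2 = 2 r (lam r B)^2 / |D| ≤ 2 r (lam r B)^2 / d0`. -/
def T_PHB : Prop := ∀ (V Lam : Type) [Fintype V] [DecidableEq V] [Fintype Lam]
  [DecidableEq Lam] (S : Sys V Lam) (A : Lam → Finset V) (h : Lam → ℕ) (l : Lam)
  (D X : Finset V), S.Inv A h → (S.b : ℝ) * S.B ≤ (S.q : ℝ) → X ⊆ D → D ⊆ S.L l →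
  0 < S.d0 → S.d0 ≤ (D.card : ℝ) → S.lam * ((S.r : ℝ) * S.B) ≤ S.d0 →
  ∑ z ∈ S.G A h, S.wt A z * (S.EE A z (fun c => S.ex (S.nA A z c) l D X) - S.ex A l D X) ≤
    S.ex A l D X * S.eP

/-- PHC (uses PHB). PROOF. Sum PHB over the big lines `l`, `D ∈ fam l` (so `D ⊆ L l`, `cutF`
consists of subsets of `L l`) and `X = D`, `X = unb D ⊆ D`; linearity of `EE`. -/
def T_PHC : Prop := ∀ (V Lam : Type) [Fintype V] [DecidableEq V] [Fintype Lam]
  [DecidableEq Lam] (S : Sys V Lam) (A : Lam → Finset V) (h : Lam → ℕ), S.Inv A h →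
  (S.b : ℝ) * S.B ≤ (S.q : ℝ) → 0 < S.d0 → S.lam * ((S.r : ℝ) * S.B) ≤ S.d0 →
  ∑ z ∈ S.G A h, S.wt A z * (S.EE A z (fun c => S.Phi (S.nA A z c)) - S.Phi A) ≤
    S.Phi A * S.eP

/-- ACH. PROOF. Let `M'` be the set for the new state, `rk'` its rank. If `sel z c` holds: every
`v ∈ M'` collinear with `z` through `l` has `v ∈ nA A z c l`, so `l` is big and
`v ∈ A l ∩ side true z`, i.e. `T z v = true`. In particular `z ∉ M'` (the line `{z}` is small).
Take `M = insert z M'`, `rk z = 0`, `rk v = rk' v + 1`; there is no arc from `M'` to `z` (`hTC`,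
`hT`). If `sel z c` fails take `M = M'`. The new sets are subsets of the old ones. -/
def T_ACH : Prop := ∀ (V Lam : Type) [Fintype V] [DecidableEq V] [Fintype Lam]
  [DecidableEq Lam] (S : Sys V Lam) (A : Lam → Finset V) (h : Lam → ℕ) (z : V)
  (c : Lam → Option Bool) (x : ℝ), S.good A h z → S.Ach (S.nA A z c) x →
  S.Ach A (x + S.selI z c)

/-- ONE (uses PRB, TOT, WGL, WST, RST, SEL, PHC). PROOF. Suppose both alternatives fail: the idle
value `Obj A h` and all values `selI z c + Obj (nA A z c) (nh h z)` (`z` good) are smaller than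
`Q = Low ..`. The weighted mean
`(1 - kap * WG) * Obj A h + kap * ∑_{z ∈ G} wt A z * EE (selI z c + Obj (nA A z c) (nh h z))`
is then smaller than `Q` (the weights are nonnegative and add up to `1`, by PRB and TOT). On the
other hand, by linearity of `EE` (and `EE` of a constant), it equals
`Obj A h + kap * ∑ wt A z * (EE selI + a (EE W' - W) - b' (EE Phi' - Phi) - c' (R' - R))`, which
is at least `Obj A h + kap * (del ^ r * WG - a * eW * WG - b' * Phi * eP - c' * 2 * R)` by SEL,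
WST, PHC, RST; with `WG ≤ W` (TOT) in the second term and WGL in the first this is at least
`Q`. (`0 ≤ kap`, `0 ≤ eW`.) Contradiction. -/
def T_ONE : Prop := ∀ (V Lam : Type) [Fintype V] [DecidableEq V] [Fintype Lam]
  [DecidableEq Lam] (S : Sys V Lam) (A : Lam → Finset V) (h : Lam → ℕ), S.Inv A h →
  S.Cond → ∀ a b' c' d : ℝ, 0 ≤ a → 0 ≤ b' → 0 ≤ c' →
  S.Low a b' c' d A h ≤ S.Obj a b' c' d A h ∨
  ∃ z c, z ∈ S.G A h ∧
    S.Low a b' c' d A h ≤ S.selI z c + S.Obj a b' c' d (S.nA A z c) (S.nh h z)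

/-- IND (uses ONE, INV, ACH). PROOF. Induction on `m`, for all admissible states. Let
`g = kap * del ^ r`. `m = 0`: the empty set. Step: apply ONE with `a = g m (1 - kap eW)^m`,
`b' = g K2 m (1 + kap eP)^m`, `c' = g K3 m (1 + 2 kap)^m`, `d = g K1 m`. The bound for `m + 1` is
at most `Low a b' c' d A h`, because (with `x = 1 - kap eW ∈ [0, 1]`, `W ≥ 0`)
`g (m + 1) x^(m+1) ≤ g + g m x^m x`, and for `y = 1 + kap eP ≥ 1`, `Phi ≥ 0`:
`g K2 (m + 1) y^(m+1) ≥ g K2 + g K2 m y^m y`, in the same way for `R`; `K1` is linear. The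
induction hypothesis for the same state (idle) or for the new state (INV, then ACH with
`x = Obj ..`) finishes the proof (`Ach` is monotone in `x`). -/
def T_IND : Prop := ∀ (V Lam : Type) [Fintype V] [DecidableEq V] [Fintype Lam]
  [DecidableEq Lam] (S : Sys V Lam), S.Cond → ∀ (m : ℕ) (A : Lam → Finset V) (h : Lam → ℕ),
  S.Inv A h →
  S.Ach A (S.kap * S.del ^ S.r * (m : ℝ) * ((1 - S.kap * S.eW) ^ m * S.W A -
    S.K2 * (1 + S.kap * S.eP) ^ m * S.Phi A - S.K3 * (1 + 2 * S.kap) ^ m * S.R h - S.K1))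

/-- START. PROOF. All factors are `1` at the start: `wt = 1 / q`, `beta = 1`, `Z S.L l X = |X|`,
every `ex` is `1`. `cutF l n` has at most `(2 q + 1) ^ n` members; a big line has at least
`2` points, so the number of big lines is at most `∑_l |L l| = ∑_v |lines v| ≤ r |V|`. -/
def T_START : Prop := ∀ (V Lam : Type) [Fintype V] [DecidableEq V] [Fintype Lam]
  [DecidableEq Lam] (S : Sys V Lam),
  S.Inv S.L (fun _ => 0) ∧ S.W S.L = (Fintype.card V : ℝ) / (S.q : ℝ) ∧
  S.Phi S.L ≤ 2 * ((S.r : ℝ) * (Fintype.card V : ℝ)) * (2 * (S.q : ℝ) + 1) ^ S.H ∧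
  S.R (fun _ => 0) ≤ (S.r : ℝ) * (Fintype.card V : ℝ)

/-- NUM1. PROOF. `H = ⌊log q / (20 r log (1/del))⌋` with `del = 1 / (100 r)`. Everything is an
asymptotic statement as `q → ∞` (`r` fixed): `(1/del)^(H r) ≤ q^(1/20)`; `b = ⌊q^(4/5)⌋ + 1`
(so `q^(4/5) ≤ b ≤ 2 q^(4/5)`); `del ^ H * b ≥ q^(3/4)`; `lam = q^(1/10)`;
`H ≥ log q / (40 r log (1/del))` for large `q`; `exp (-q^(1/10) del)` beats
`q^(O(log q)) = exp (O(log² q))`. -/
def T_NUM1 : Prop := ∀ r : ℕ, 1 ≤ r → ∃ c : ℝ, 0 < c ∧ ∃ q0 : ℕ, ∀ q : ℕ, q0 ≤ q →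
  ∃ (H b : ℕ) (lam : ℝ), 0 < lam ∧ 2 ≤ b ∧ c * Real.log q ≤ H ∧ 16 ≤ H ∧
    (let del : ℝ := 1 / (100 * (r : ℝ))
     let B : ℝ := (1 / del) ^ (H * r)
     let d0 : ℝ := del ^ H * (b : ℝ)
     (b : ℝ) * B ≤ (q : ℝ) ∧ 2 / del ≤ d0 ∧ lam * ((r : ℝ) * B) ≤ d0 ∧
     (H : ℝ) * ((r : ℝ) * (b : ℝ) * B / (q : ℝ)) ≤ 1 / 8 ∧
     (H : ℝ) * (2 * (r : ℝ) * (lam * ((r : ℝ) * B)) ^ 2 / d0) ≤ 1 ∧
     B * Real.exp (-(lam * del)) * (2 * (r : ℝ) * (2 * (q : ℝ) + 1) ^ H) * (q : ℝ) ≤ 1 / 24 ∧
     (2 * (r : ℝ)) * (1 / 2) ^ H * Real.exp ((H : ℝ) / 4) ≤ 1 / 8)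

end Pool.Agent.LGA
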